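import Pool.Agent.H48.TN.Tools

/-!
# FLL: local flat decoupling
-/

set_option autoImplicit false

namespace Pool.Agent.H33.TN

open MeasureTheory Set FourierTransform
open Pool.Agent.H93.TN Pool.Agent.H83.LS Pool.Agent.H93.AR Pool.Agent.H54.LS Pool.Agent.H14.LS
open Pool.Agent.H83.AR Pool.Agent.H84.BR Pool.Agent.H84.B2 Pool.Agent.H48.TN
open scoped ENNReal NNReal

section

variable {n : ℕ}

/-! ### measurability -/

theorem fll_ker {Lam : ℝ} (r : ℝ) (hL : 0 < Lam) :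
    Measurable (fun q : (Sp n × EE n) × EE n =>
      MK (sy n ch2 Lam r (q.1.1 : EE n)) (q.1.2 - q.2)) := by
  have h2 : Continuous (fun q : (Sp n × EE n) × EE n =>
      (((q.1.1 : EE n), q.1.2 - q.2) : EE n × EE n)) := by fun_prop
  have h4 : (fun q : (Sp n × EE n) × EE n =>
      MK (sy n ch2 Lam r (q.1.1 : EE n)) (q.1.2 - q.2)) =
        (fun q : EE n × EE n => MK (sy n ch2 Lam r q.1) q.2) ∘
          (fun q : (Sp n × EE n) × EE n =>
            (((q.1.1 : EE n), q.1.2 - q.2) : EE n × EE n)) := rfl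
  rw [h4]
  exact ((MK_cont rc_ch2 ch2_nonneg ch2_le_one r hL).comp h2).measurable

theorem fll_G {G : Sp n → EE n → ℂ} (hG : Measurable (Function.uncurry G)) :
    Measurable (fun q : (Sp n × EE n) × EE n => G q.1.1 q.2) := by
  have h4 : Measurable (fun q : (Sp n × EE n) × EE n => ((q.1.1, q.2) : Sp n × EE n)) :=
    (measurable_fst.comp measurable_fst).prodMk measurable_snd
  exact hG.comp h4

theorem fll_joint {Lam : ℝ} (r : ℝ) (hL : 0 < Lam) {G : Sp n → EE n → ℂ}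
    (hG : Measurable (Function.uncurry G)) :
    StronglyMeasurable (fun p : Sp n × EE n => Qb n Lam r (p.1 : EE n) (G p.1) p.2) := by
  have h5 := ((fll_ker r hL).mul (fll_G hG)).stronglyMeasurable
  exact h5.integral_prod_right'

theorem fll_in_u {Lam : ℝ} (r : ℝ) (hL : 0 < Lam) {G : Sp n → EE n → ℂ}
    (hG : Measurable (Function.uncurry G)) (x : EE n) :
    StronglyMeasurable (fun u : Sp n => Qb n Lam r (u : EE n) (G u) x) := by
  have h1 : Measurable (fun u : Sp n => ((u, x) : Sp n × EE n)) :=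
    measurable_id.prodMk measurable_const
  have h2 := (fll_joint r hL hG).comp_measurable h1
  exact h2

theorem fll_in_x {Lam : ℝ} (r : ℝ) (hL : 0 < Lam) {G : Sp n → EE n → ℂ}
    (hG : Measurable (Function.uncurry G)) (B : Set (Sp n)) :
    StronglyMeasurable (fun x : EE n => ∫ u in B, Qb n Lam r (u : EE n) (G u) x ∂(sg n)) := by
  have h2 := (fll_joint r hL hG).integral_prod_left' (μ := (sg n).restrict B)
  exact h2

/-! ### bounds -/

theorem fll_L1 {C : ℝ} {N : ℕ} {Lam r : ℝ} {u : EE n}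
    (h : ∀ D : ℝ, 0 ≤ D → ∫⁻ x in {x : EE n | D ≤ |inner ℝ x u|}, ‖MK (sy n ch2 Lam r u) x‖ₑ ≤
      ENNReal.ofReal (C * ((1 + Lam * D) ^ N)⁻¹)) :
    ∫⁻ x, ‖MK (sy n ch2 Lam r u) x‖ₑ ≤ ENNReal.ofReal C := by
  have h1 := h 0 le_rfl
  have h2 : {x : EE n | (0 : ℝ) ≤ |inner ℝ x u|} = Set.univ := by
    ext x
    simp
  rw [h2, Measure.restrict_univ, mul_zero, add_zero, one_pow, inv_one, mul_one] at h1
  exact h1

/-- the convolution with a bounded function -/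
theorem fll_conv_le {Lam r A : ℝ} {u : EE n} {v : EE n → ℂ}
    (hA : ∀ x, ‖v x‖ ≤ A) {x : EE n} {S : Set (EE n)} (hS : MeasurableSet S)
    (hv : ∀ z, z ∉ S → v (x - z) = 0) :
    ‖Qb n Lam r u v x‖ₑ ≤ ENNReal.ofReal A *
      ∫⁻ z in S, ‖MK (sy n ch2 Lam r u) z‖ₑ := by
  unfold Qb cn
  refine (enorm_integral_le_lintegral_enorm _).trans ?_
  have h1 : ∫⁻ y : EE n, ‖MK (sy n ch2 Lam r u) (x - y) * v y‖ₑ =
      ∫⁻ z : EE n, ‖MK (sy n ch2 Lam r u) z * v (x - z)‖ₑ := by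
    rw [← lintegral_sub_left_eq_self (fun z : EE n =>
      ‖MK (sy n ch2 Lam r u) z * v (x - z)‖ₑ) x]
    refine lintegral_congr fun y => ?_
    rw [sub_sub_cancel]
  rw [h1, ← lintegral_const_mul' _ _ ENNReal.ofReal_ne_top, ← lintegral_indicator hS]
  refine lintegral_mono fun z => ?_
  by_cases hz : z ∈ S
  · rw [Set.indicator_of_mem hz, enorm_mul, mul_comm]
    gcongr
    rw [← ofReal_norm]
    exact ENNReal.ofReal_le_ofReal (hA _)
  · rw [Set.indicator_of_notMem hz, hv z hz, mul_zero, enorm_zero]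

/-- additivity of the convolution -/
theorem fll_add {Lam r A₁ A₂ : ℝ} {u : EE n} (hK : Integrable (MK (sy n ch2 Lam r u)))
    {v₁ v₂ : EE n → ℂ} (h1 : Measurable v₁) (h2 : Measurable v₂) (hA₁ : ∀ x, ‖v₁ x‖ ≤ A₁)
    (hA₂ : ∀ x, ‖v₂ x‖ ≤ A₂) (x : EE n) :
    Qb n Lam r u (fun y => v₁ y + v₂ y) x = Qb n Lam r u v₁ x + Qb n Lam r u v₂ x := by
  have hK' : Integrable (fun y : EE n => MK (sy n ch2 Lam r u) (x - y)) := hK.comp_sub_left x
  have i1 : Integrable (fun y : EE n => MK (sy n ch2 Lam r u) (x - y) * v₁ y) :=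
    hK'.mul_bdd h1.aestronglyMeasurable (ae_of_all _ hA₁)
  have i2 : Integrable (fun y : EE n => MK (sy n ch2 Lam r u) (x - y) * v₂ y) :=
    hK'.mul_bdd h2.aestronglyMeasurable (ae_of_all _ hA₂)
  unfold Qb cn
  rw [← integral_add i1 i2]
  refine integral_congr_ae (ae_of_all _ fun y => ?_)
  simp only
  ring

/-! ### elementary inequalities -/

theorem fll_pow {m q : ℝ} (hm : 0 < m) (hq : 1 ≤ q) {a b c : ℝ≥0∞}
    (h : ENNReal.ofReal m * a ≤ b + c) :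
    a ^ q ≤ ENNReal.ofReal ((m⁻¹) ^ q * 2 ^ (q - 1)) * (b ^ q + c ^ q) := by
  have hq0 : 0 ≤ q := by linarith
  have h1 : a ≤ ENNReal.ofReal m⁻¹ * (b + c) := by
    calc a = ENNReal.ofReal m⁻¹ * (ENNReal.ofReal m * a) := by
          rw [← mul_assoc, ← ENNReal.ofReal_mul (inv_nonneg.2 hm.le), inv_mul_cancel₀ hm.ne',
            ENNReal.ofReal_one, one_mul]
      _ ≤ _ := by gcongr
  calc a ^ q ≤ (ENNReal.ofReal m⁻¹ * (b + c)) ^ q := ENNReal.rpow_le_rpow h1 hq0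
    _ = ENNReal.ofReal m⁻¹ ^ q * (b + c) ^ q := ENNReal.mul_rpow_of_nonneg _ _ hq0
    _ ≤ ENNReal.ofReal m⁻¹ ^ q * (2 ^ (q - 1) * (b ^ q + c ^ q)) := by
        gcongr
        exact ENNReal.rpow_add_le_mul_rpow_add_rpow b c hq
    _ = _ := by
        rw [← mul_assoc, ENNReal.ofReal_mul (by positivity),
          ← ENNReal.ofReal_rpow_of_nonneg (inv_nonneg.2 hm.le) hq0,
          ← ENNReal.ofReal_rpow_of_pos (by norm_num : (0 : ℝ) < 2)]
        norm_num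

/-- the exponents of the main term -/
theorem fll_ar1 {n : ℕ} (hn : 1 ≤ n) {q r : ℝ} (hr : 0 < r) :
    r ^ (-(((n : ℝ) - 1) * q)) * (2 * r) ^ (n - 1) =
      2 ^ (n - 1) * r ^ (-(((n : ℝ) - 1) * (q - 1))) := by
  have h1 : (r : ℝ) ^ (n - 1) = r ^ ((n : ℝ) - 1) := by
    rw [← Real.rpow_natCast, Nat.cast_sub hn, Nat.cast_one]
  rw [mul_pow, h1]
  have h2 : r ^ (-(((n : ℝ) - 1) * (q - 1))) =
      r ^ (-(((n : ℝ) - 1) * q)) * r ^ ((n : ℝ) - 1) := by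
    rw [← Real.rpow_add hr]
    congr 1
    ring
  rw [h2]
  ring

/-- the exponents of the tail -/
theorem fll_ar2 {n : ℕ} (hn : 1 ≤ n) {q r lam ε K₀ M : ℝ} {N N' : ℕ} (hr : 0 < r)
    (hlam : 1 ≤ lam) (hq : 2 < q) (hr2 : (64 * Real.sqrt lam)⁻¹ ≤ r) (hK : 0 ≤ K₀) (hM : 0 ≤ M)
    (hN : (N : ℝ) ≤ (ε * N' - ((n : ℝ) - 1) / 2) * (q - 2)) :
    r ^ (-(((n : ℝ) - 1) * q)) * (2 * r) ^ (n - 1) * r ^ (n - 1) *
      (K₀ * M * (lam ^ (ε * N'))⁻¹) ^ (q - 2) ≤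
      2 ^ (n - 1) * (64 ^ (((n : ℝ) - 1) * (q - 2)) * K₀ ^ (q - 2)) *
        ((lam ^ N)⁻¹ * M ^ (q - 2)) := by
  have hl0 : 0 < lam := by linarith
  have ha : 0 ≤ (n : ℝ) - 1 := by
    have : (1 : ℝ) ≤ n := by exact_mod_cast hn
    linarith
  have hq2 : 0 < q - 2 := by linarith
  have h1 : (r : ℝ) ^ (n - 1) = r ^ ((n : ℝ) - 1) := by
    rw [← Real.rpow_natCast, Nat.cast_sub hn, Nat.cast_one]
  rw [fll_ar1 hn hr, h1]
  have h2 : r ^ (-(((n : ℝ) - 1) * (q - 1))) * r ^ ((n : ℝ) - 1) =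
      r ^ (-(((n : ℝ) - 1) * (q - 2))) := by
    rw [← Real.rpow_add hr]
    congr 1
    ring
  have h3 : r ^ (-(((n : ℝ) - 1) * (q - 2))) ≤
      64 ^ (((n : ℝ) - 1) * (q - 2)) * lam ^ (((n : ℝ) - 1) / 2 * (q - 2)) := by
    have hs : 0 < Real.sqrt lam := Real.sqrt_pos.2 hl0
    rw [Real.rpow_neg hr.le, ← Real.inv_rpow hr.le]
    have h4 : r⁻¹ ≤ 64 * Real.sqrt lam := by
      rw [inv_le_comm₀ hr (by positivity)]
      exact hr2
    calc (r⁻¹) ^ (((n : ℝ) - 1) * (q - 2)) ≤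
        (64 * Real.sqrt lam) ^ (((n : ℝ) - 1) * (q - 2)) :=
          Real.rpow_le_rpow (by positivity) h4 (by positivity)
      _ = _ := by
          rw [Real.mul_rpow (by norm_num) hs.le, Real.sqrt_eq_rpow, ← Real.rpow_mul hl0.le]
          congr 2
          ring
  have h5 : (K₀ * M * (lam ^ (ε * N'))⁻¹) ^ (q - 2) =
      K₀ ^ (q - 2) * M ^ (q - 2) * lam ^ (-(ε * N' * (q - 2))) := by
    have h6 : 0 < lam ^ (ε * N') := Real.rpow_pos_of_pos hl0 _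
    rw [Real.mul_rpow (by positivity) (by positivity), Real.mul_rpow hK hM,
      ← Real.rpow_neg hl0.le, ← Real.rpow_mul hl0.le]
    congr 2
    ring
  have h7 : lam ^ (((n : ℝ) - 1) / 2 * (q - 2)) * lam ^ (-(ε * N' * (q - 2))) ≤
      (lam ^ N)⁻¹ := by
    rw [← Real.rpow_add hl0, ← Real.rpow_natCast lam N, ← Real.rpow_neg hl0.le]
    refine Real.rpow_le_rpow_of_exponent_le hlam ?_
    nlinarith [hN]
  have hKq : 0 ≤ K₀ ^ (q - 2) := Real.rpow_nonneg hK _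
  have hMq : 0 ≤ M ^ (q - 2) := Real.rpow_nonneg hM _
  have h64 : (0 : ℝ) ≤ 64 ^ (((n : ℝ) - 1) * (q - 2)) := Real.rpow_nonneg (by norm_num) _
  have hlp : 0 ≤ lam ^ (-(ε * N' * (q - 2))) := Real.rpow_nonneg hl0.le _
  rw [h5]
  calc 2 ^ (n - 1) * r ^ (-(((n : ℝ) - 1) * (q - 1))) * r ^ ((n : ℝ) - 1) *
      (K₀ ^ (q - 2) * M ^ (q - 2) * lam ^ (-(ε * N' * (q - 2)))) =
      2 ^ (n - 1) * K₀ ^ (q - 2) * M ^ (q - 2) * lam ^ (-(ε * N' * (q - 2))) *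
        (r ^ (-(((n : ℝ) - 1) * (q - 1))) * r ^ ((n : ℝ) - 1)) := by ring
    _ ≤ 2 ^ (n - 1) * K₀ ^ (q - 2) * M ^ (q - 2) * lam ^ (-(ε * N' * (q - 2))) *
        (64 ^ (((n : ℝ) - 1) * (q - 2)) * lam ^ (((n : ℝ) - 1) / 2 * (q - 2))) := by
        rw [h2]
        exact mul_le_mul_of_nonneg_left h3 (by positivity)
    _ = 2 ^ (n - 1) * (64 ^ (((n : ℝ) - 1) * (q - 2)) * K₀ ^ (q - 2)) * M ^ (q - 2) *
        (lam ^ (((n : ℝ) - 1) / 2 * (q - 2)) * lam ^ (-(ε * N' * (q - 2)))) := by ring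
    _ ≤ 2 ^ (n - 1) * (64 ^ (((n : ℝ) - 1) * (q - 2)) * K₀ ^ (q - 2)) * M ^ (q - 2) *
        (lam ^ N)⁻¹ := mul_le_mul_of_nonneg_left h7 (by positivity)
    _ = _ := by ring

/-- the part of the bands in the slab -/
noncomputable def fllG (B : ℝ) (v : Sp n → EE n → ℂ) (u : Sp n) (x : EE n) : ℂ :=
  {x : EE n | |inner ℝ x (u : EE n)| ≤ B}.indicator (v u) x

/-- the part of the bands outside the slab -/
noncomputable def fllH (B : ℝ) (v : Sp n → EE n → ℂ) (u : Sp n) (x : EE n) : ℂ :=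
  {x : EE n | |inner ℝ x (u : EE n)| ≤ B}ᶜ.indicator (v u) x

theorem fll_GH (B : ℝ) (v : Sp n → EE n → ℂ) (u : Sp n) (x : EE n) :
    fllG B v u x + fllH B v u x = v u x := by
  unfold fllG fllH
  exact congrFun (Set.indicator_self_add_compl _ (v u)) x

theorem fll_slab (B : ℝ) (u : Sp n) :
    MeasurableSet {x : EE n | |inner ℝ x (u : EE n)| ≤ B} := by
  have h1 : Continuous fun x : EE n => |(inner ℝ x (u : EE n) : ℝ)| :=
    (continuous_id.inner continuous_const).abs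
  exact (isClosed_le h1 continuous_const).measurableSet

theorem fll_slab2 (B : ℝ) :
    MeasurableSet {p : Sp n × EE n | |inner ℝ p.2 (p.1 : EE n)| ≤ B} := by
  have h1 : Continuous fun p : Sp n × EE n => |(inner ℝ p.2 (p.1 : EE n) : ℝ)| :=
    (continuous_snd.inner (continuous_subtype_val.comp continuous_fst)).abs
  exact (isClosed_le h1 continuous_const).measurableSet

theorem fll_Gm (B : ℝ) {v : Sp n → EE n → ℂ} (hv : Measurable (Function.uncurry v)) :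
    Measurable (Function.uncurry (fllG B v)) := by
  have h1 : Function.uncurry (fllG B v) =
      {p : Sp n × EE n | |inner ℝ p.2 (p.1 : EE n)| ≤ B}.indicator (Function.uncurry v) := by
    funext p
    rfl
  rw [h1]
  exact hv.indicator (fll_slab2 B)

theorem fll_Hm (B : ℝ) {v : Sp n → EE n → ℂ} (hv : Measurable (Function.uncurry v)) :
    Measurable (Function.uncurry (fllH B v)) := by
  have h1 : Function.uncurry (fllH B v) =
      {p : Sp n × EE n | |inner ℝ p.2 (p.1 : EE n)| ≤ B}ᶜ.indicator (Function.uncurry v) := by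
    funext p
    rfl
  rw [h1]
  exact hv.indicator (fll_slab2 B).compl

theorem fll_Gn (B : ℝ) (v : Sp n → EE n → ℂ) (u : Sp n) (x : EE n) :
    ‖fllG B v u x‖ ≤ ‖v u x‖ := norm_indicator_le_norm_self _ _

theorem fll_Hn (B : ℝ) (v : Sp n → EE n → ℂ) (u : Sp n) (x : EE n) :
    ‖fllH B v u x‖ ≤ ‖v u x‖ := norm_indicator_le_norm_self _ _

end

theorem fll_sec {n : ℕ} {G : Sp n → EE n → ℂ} (hG : Measurable (Function.uncurry G)) (u : Sp n) :
    Measurable (G u) := by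
  have h1 : Measurable (fun x : EE n => ((u, x) : Sp n × EE n)) :=
    measurable_const.prodMk measurable_id
  exact hG.comp h1

theorem pf_fll (hFLT : T_FLT) (hFL2 : T_FL2) (hSEL : T_SEL) (hCNC : T_CNC) (hMDL : T_MDL)
    (hSID : T_SID) (hORT : T_ORT) : T_FLL := by
  intro n q ε N hn hq hε
  have ha : 0 ≤ (n : ℝ) - 1 := by
    have : (1 : ℝ) ≤ n := by exact_mod_cast hn
    linarith
  have hq2 : 0 < q - 2 := by linarith
  have hq0 : 0 < q := by linarith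
  obtain ⟨C₁, hC₁⟩ := hFLT n q hn hq
  obtain ⟨C₂, hC₂⟩ := hFL2 n hn
  obtain ⟨N', hN'⟩ : ∃ N' : ℕ, (N : ℝ) ≤ (ε * N' - ((n : ℝ) - 1) / 2) * (q - 2) := by
    obtain ⟨N', h⟩ := exists_nat_ge ((N / (q - 2) + ((n : ℝ) - 1) / 2) / ε)
    refine ⟨N', ?_⟩
    rw [div_le_iff₀ hε] at h
    have h2 : N / (q - 2) ≤ ε * N' - ((n : ℝ) - 1) / 2 := by linarith
    rwa [div_le_iff₀ hq2] at h2
  obtain ⟨Cs, hCs0, hCs⟩ := hSEL n N' ch2 hn rc_ch2
  obtain ⟨C₃, hC₃0, hC₃⟩ := hMDL n hn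
  obtain ⟨C₄, hC₄⟩ := hORT n hn
  obtain ⟨S₀, hS₀⟩ : ∃ S : ℝ, S = (sg n Set.univ).toReal := ⟨_, rfl⟩
  have hS₀0 : 0 ≤ S₀ := by rw [hS₀]; exact ENNReal.toReal_nonneg
  have hS₀' : sg n Set.univ = ENNReal.ofReal S₀ := by
    rw [hS₀, ENNReal.ofReal_toReal (measure_ne_top _ _)]
  obtain ⟨K₀, hK₀⟩ : ∃ K : ℝ, K = S₀ * Cs * Cs := ⟨_, rfl⟩
  have hK₀0 : 0 ≤ K₀ := by rw [hK₀]; positivity
  obtain ⟨C, hC⟩ : ∃ C : ℝ, C = C₃ ^ q * 2 ^ (q - 1) * 2 ^ (n - 1) * (C₁ + C₂ * C₄ *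
      (64 ^ (((n : ℝ) - 1) * (q - 2)) * K₀ ^ (q - 2))) := ⟨_, rfl⟩
  have hC0 : 0 ≤ C := by rw [hC]; positivity
  refine ⟨C.toNNReal, ?_⟩
  intro lam Lam σ M B v hlam hw hL4 hσ hB hv hM hC0v hQB
  have hl0 : 0 < lam := by linarith
  have hsq : 0 < Real.sqrt lam := Real.sqrt_pos.2 hl0
  have hL : 0 < Lam := hsq.trans_le hw
  have hσ0 : 0 < σ := (by positivity : 0 < 1 / Lam).trans_le hσ
  have hM0 : 0 ≤ M := (norm_nonneg _).trans (hM 0)
  obtain ⟨r, hrdef⟩ : ∃ r : ℝ, r = dl lam Lam := ⟨_, rfl⟩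
  have hr : 0 < r := by
    rw [hrdef]
    unfold dl
    positivity
  have hr16 : r ≤ 1 / 16 := by
    rw [hrdef]
    unfold dl
    rw [div_le_div_iff₀ (by positivity) (by norm_num)]
    linarith
  have hrl : (64 * Real.sqrt lam)⁻¹ ≤ r := by
    rw [hrdef]
    unfold dl
    rw [inv_le_iff_one_le_mul₀ (by positivity), div_mul_eq_mul_div, le_div_iff₀ (by positivity)]
    have h1 : Real.sqrt lam * Real.sqrt lam = lam := Real.mul_self_sqrt hl0.le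
    nlinarith
  rw [← hrdef]
  rw [← hrdef] at hQB
  -- a unit vector
  obtain ⟨u₀, hu₀⟩ : ∃ u : EE n, ‖u‖ = 1 := by
    refine ⟨EuclideanSpace.single (⟨0, by omega⟩ : Fin n) (1 : ℝ), ?_⟩
    rw [PiLp.norm_single, norm_one]
  obtain ⟨m, hmdef⟩ : ∃ m : ℝ, m = md n r u₀ := ⟨_, rfl⟩
  have hmC : C₃⁻¹ * r ^ (n - 1) ≤ m := by
    rw [hmdef]
    exact ((hC₃ r hr (by linarith)).2 u₀ hu₀).1
  have hm0 : 0 < m := lt_of_lt_of_le (by positivity) hmC
  obtain ⟨sid1, -, sid3, sid4⟩ := hSID n Lam r M v hn hL hr hr16 hv hM hC0v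
  -- kernels
  have hsel1 : ∀ u : Sp n, _ := fun u => hCs Lam r (u : EE n) hL hr (by linarith)
    (mem_sphere_zero_iff_norm.1 u.2)
  have hsel2 : ∀ u : Sp n, _ := fun u => hCs Lam (2 * r) (u : EE n) hL (by positivity)
    (by linarith) (mem_sphere_zero_iff_norm.1 u.2)
  have hL1a : ∀ u : Sp n, ∫⁻ x, ‖MK (sy n ch2 Lam r (u : EE n)) x‖ₑ ≤ ENNReal.ofReal Cs :=
    fun u => fll_L1 (hsel1 u).2.2.2.1
  have hL1b : ∀ u : Sp n, ∫⁻ x, ‖MK (sy n ch2 Lam (2 * r) (u : EE n)) x‖ₑ ≤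
      ENNReal.ofReal Cs := fun u => fll_L1 (hsel2 u).2.2.2.1
  have hKint : ∀ u : Sp n, Integrable (MK (sy n ch2 Lam (2 * r) (u : EE n))) := fun u =>
    (hCNC n _ _ v M (hsel2 u).1 (hsel2 u).1 hv hM).1
  -- bounds for the bands
  obtain ⟨Q, hQ⟩ : ∃ Q : Sp n → EE n → ℂ, Q = fun (u : Sp n) x => Qb n Lam r (u : EE n) v x :=
    ⟨_, rfl⟩
  have hQm : Measurable (Function.uncurry Q) := by
    have h1 : Function.uncurry Q = fun q : Sp n × EE n => Qb n Lam r (q.1 : EE n) v q.2 := by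
      rw [hQ]
      rfl
    rw [h1]
    exact sid4.measurable
  have hbd : ∀ (r' : ℝ) (u : Sp n) (w : EE n → ℂ) (A : ℝ), 0 ≤ A → (∀ x, ‖w x‖ ≤ A) →
      ∫⁻ x, ‖MK (sy n ch2 Lam r' (u : EE n)) x‖ₑ ≤ ENNReal.ofReal Cs → ∀ x,
      ‖Qb n Lam r' (u : EE n) w x‖ ≤ Cs * A := by
    intro r' u w A hA0 hA hK x
    have h1 := fll_conv_le (Lam := Lam) (r := r') (u := (u : EE n)) hA (x := x)
      MeasurableSet.univ (fun z hz => absurd (Set.mem_univ z) hz)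
    rw [Measure.restrict_univ] at h1
    have h2 : ‖Qb n Lam r' (u : EE n) w x‖ₑ ≤ ENNReal.ofReal (Cs * A) := by
      refine h1.trans ?_
      rw [ENNReal.ofReal_mul hCs0, mul_comm]
      gcongr
    rw [← ofReal_norm] at h2
    exact (ENNReal.ofReal_le_ofReal_iff (by positivity)).1 h2
  have hQb : ∀ u x, ‖Q u x‖ ≤ Cs * M := by
    intro u x
    rw [hQ]
    exact hbd r u v M hM0 hM (hL1a u) x
  have hCsM : 0 ≤ Cs * M := by positivity
  -- the splitting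
  obtain ⟨s, hs⟩ : ∃ s : ℝ, s = 2 * lam ^ ε * σ := ⟨_, rfl⟩
  have hGm := fll_Gm s hQm
  have hHm := fll_Hm s hQm
  have hGb : ∀ u x, ‖fllG s Q u x‖ ≤ Cs * M := fun u x => (fll_Gn s Q u x).trans (hQb u x)
  have hHb : ∀ u x, ‖fllH s Q u x‖ ≤ Cs * M := fun u x => (fll_Hn s Q u x).trans (hQb u x)
  have hsplit : ∀ (u : Sp n) (x : EE n), Q u x =
      Qb n Lam (2 * r) (u : EE n) (fllG s Q u) x +
        Qb n Lam (2 * r) (u : EE n) (fllH s Q u) x := by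
    intro u x
    rw [← fll_add (hKint u) (fll_sec hGm u) (fll_sec hHm u) (hGb u) (hHb u)]
    have h1 : (fun y => fllG s Q u y + fllH s Q u y) = Q u := by
      funext y
      exact fll_GH s Q u y
    rw [h1, hQ]
    exact (sid1 (u : EE n) x (mem_sphere_zero_iff_norm.1 u.2)).symm
  have hmain : ∀ x, ((m : ℝ) : ℂ) * v x =
      (∫ u in B, Qb n Lam (2 * r) (u : EE n) (fllG s Q u) x ∂(sg n)) +
        ∫ u in B, Qb n Lam (2 * r) (u : EE n) (fllH s Q u) x ∂(sg n) := by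
    intro x
    have i1 : Integrable (fun u : Sp n => Qb n Lam (2 * r) (u : EE n) (fllG s Q u) x)
        ((sg n).restrict B) :=
      Integrable.of_bound (fll_in_u (2 * r) hL hGm x).aestronglyMeasurable (Cs * (Cs * M))
        (ae_of_all _ fun u => hbd (2 * r) u _ _ hCsM (hGb u) (hL1b u) x)
    have i2 : Integrable (fun u : Sp n => Qb n Lam (2 * r) (u : EE n) (fllH s Q u) x)
        ((sg n).restrict B) :=
      Integrable.of_bound (fll_in_u (2 * r) hL hHm x).aestronglyMeasurable (Cs * (Cs * M))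
        (ae_of_all _ fun u => hbd (2 * r) u _ _ hCsM (hHb u) (hL1b u) x)
    rw [← integral_add i1 i2, hmdef, sid3 u₀ x hu₀]
    have h1 : ∫ u : Sp n, Qb n Lam r (u : EE n) v x ∂(sg n) =
        ∫ u in B, Qb n Lam r (u : EE n) v x ∂(sg n) :=
      (setIntegral_eq_integral_of_forall_compl_eq_zero fun u hu => hQB u hu x).symm
    rw [h1]
    refine integral_congr_ae (ae_of_all _ fun u => ?_)
    simp only
    rw [← hsplit u x, hQ]
  obtain ⟨I₁, hI₁⟩ : ∃ I : EE n → ℂ, I = fun x =>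
      ∫ u in B, Qb n Lam (2 * r) (u : EE n) (fllG s Q u) x ∂(sg n) := ⟨_, rfl⟩
  obtain ⟨I₂, hI₂⟩ : ∃ I : EE n → ℂ, I = fun x =>
      ∫ u in B, Qb n Lam (2 * r) (u : EE n) (fllH s Q u) x ∂(sg n) := ⟨_, rfl⟩
  have hI₁m : StronglyMeasurable I₁ := by
    rw [hI₁]
    exact fll_in_x (2 * r) hL hGm B
  have hAx : ∀ x, ENNReal.ofReal m * ‖v x‖ₑ ≤ ‖I₁ x‖ₑ + ‖I₂ x‖ₑ := by
    intro x
    have h1 : ENNReal.ofReal m * ‖v x‖ₑ = ‖((m : ℝ) : ℂ) * v x‖ₑ := by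
      rw [enorm_mul, ← ofReal_norm ((m : ℝ) : ℂ), Complex.norm_real, Real.norm_eq_abs,
        abs_of_pos hm0]
    rw [h1, hmain x, hI₁, hI₂]
    exact enorm_add_le _ _
  have hball : MeasurableSet {x : EE n | ‖x‖ ≤ σ} :=
    (isClosed_le continuous_norm continuous_const).measurableSet
  have hstep : ∫⁻ x in {x : EE n | ‖x‖ ≤ σ}, ‖v x‖ₑ ^ q ≤
      ENNReal.ofReal ((m⁻¹) ^ q * 2 ^ (q - 1)) *
        ((∫⁻ x, ‖I₁ x‖ₑ ^ q) + ∫⁻ x in {x : EE n | ‖x‖ ≤ σ}, ‖I₂ x‖ₑ ^ q) := by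
    calc ∫⁻ x in {x : EE n | ‖x‖ ≤ σ}, ‖v x‖ₑ ^ q ≤
        ∫⁻ x in {x : EE n | ‖x‖ ≤ σ}, ENNReal.ofReal ((m⁻¹) ^ q * 2 ^ (q - 1)) *
          (‖I₁ x‖ₑ ^ q + ‖I₂ x‖ₑ ^ q) :=
          lintegral_mono fun x => fll_pow hm0 (by linarith) (hAx x)
      _ = ENNReal.ofReal ((m⁻¹) ^ q * 2 ^ (q - 1)) *
          ∫⁻ x in {x : EE n | ‖x‖ ≤ σ}, (‖I₁ x‖ₑ ^ q + ‖I₂ x‖ₑ ^ q) :=
          lintegral_const_mul' _ _ ENNReal.ofReal_ne_top
      _ ≤ _ := by
          refine mul_le_mul_right ?_ _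
          rw [lintegral_add_left (hI₁m.measurable.enorm.pow_const q)]
          exact add_le_add_left (setLIntegral_le_lintegral _ _) _
  -- the main term
  obtain ⟨J, hJ⟩ : ∃ J : ℝ≥0∞, J = ∫⁻ u in B, ∫⁻ x in {x : EE n | |inner ℝ x (u : EE n)| ≤
      2 * lam ^ ε * σ}, ‖Qb n Lam r (u : EE n) v x‖ₑ ^ q ∂volume ∂(sg n) := ⟨_, rfl⟩
  have hJ1 : ∫⁻ u in B, ∫⁻ x, ‖fllG s Q u x‖ₑ ^ q ∂volume ∂(sg n) = J := by
    rw [hJ]
    refine lintegral_congr fun u => ?_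
    rw [← hs, ← lintegral_indicator (fll_slab s u)]
    refine lintegral_congr fun x => ?_
    unfold fllG
    by_cases hx : x ∈ {x : EE n | |inner ℝ x (u : EE n)| ≤ s}
    · rw [Set.indicator_of_mem hx, Set.indicator_of_mem hx, hQ]
    · rw [Set.indicator_of_notMem hx, Set.indicator_of_notMem hx, enorm_zero,
        ENNReal.zero_rpow_of_pos hq0]
  have hE1 : ∫⁻ x, ‖I₁ x‖ₑ ^ q ≤ C₁ * ENNReal.ofReal ((2 * r) ^ (n - 1)) *
      (sg n B) ^ (q - 2) * J := by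
    rw [← hJ1, hI₁]
    exact hC₁ Lam (2 * r) (Cs * M) B (fllG s Q) hL (by positivity) (by linarith) hB hGm hGb
  -- the tail
  have hle1 : 1 ≤ lam ^ ε := Real.one_le_rpow hlam hε.le
  obtain ⟨T, hT⟩ : ∃ T : ℝ, T = K₀ * M * (lam ^ (ε * N'))⁻¹ := ⟨_, rfl⟩
  have hT0 : 0 ≤ T := by rw [hT]; positivity
  have htail : ∀ x : EE n, ‖x‖ ≤ σ → ‖I₂ x‖ₑ ≤ ENNReal.ofReal T := by
    intro x hx
    have h1 : ∀ u : Sp n, ‖Qb n Lam (2 * r) (u : EE n) (fllH s Q u) x‖ₑ ≤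
        ENNReal.ofReal (Cs * M * (Cs * (lam ^ (ε * N'))⁻¹)) := by
      intro u
      have hS : MeasurableSet {z : EE n | lam ^ ε / Lam ≤ |inner ℝ z (u : EE n)|} := by
        have h2 : Continuous fun x : EE n => |(inner ℝ x (u : EE n) : ℝ)| :=
          (continuous_id.inner continuous_const).abs
        exact (isClosed_le continuous_const h2).measurableSet
      refine (fll_conv_le (Lam := Lam) (r := 2 * r) (u := (u : EE n)) (hHb u) (x := x) hS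
        ?_).trans ?_
      · intro z hz
        unfold fllH
        refine Set.indicator_of_notMem ?_ _
        rw [Set.notMem_compl_iff]
        have hz' : |(inner ℝ z (u : EE n) : ℝ)| < lam ^ ε / Lam := by
          by_contra h
          exact hz (not_lt.1 h)
        have hu1 : ‖(u : EE n)‖ = 1 := mem_sphere_zero_iff_norm.1 u.2
        have h3 : |(inner ℝ x (u : EE n) : ℝ)| ≤ σ := by
          refine (abs_real_inner_le_norm _ _).trans ?_
          rw [hu1, mul_one]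
          exact hx
        show |(inner ℝ (x - z) (u : EE n) : ℝ)| ≤ s
        rw [inner_sub_left]
        have h4 : lam ^ ε / Lam ≤ lam ^ ε * σ := by
          rw [div_eq_mul_one_div]
          exact mul_le_mul_of_nonneg_left hσ (by positivity)
        have h5 : σ ≤ lam ^ ε * σ := le_mul_of_one_le_left hσ0.le hle1
        have h6 := abs_sub (inner ℝ x (u : EE n) : ℝ) (inner ℝ z (u : EE n))
        rw [hs]
        linarith
      · rw [ENNReal.ofReal_mul hCsM]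
        refine mul_le_mul_right ?_ _
        refine ((hsel2 u).2.2.2.1 (lam ^ ε / Lam) (by positivity)).trans ?_
        refine ENNReal.ofReal_le_ofReal (mul_le_mul_of_nonneg_left ?_ hCs0)
        refine inv_anti₀ (by positivity) ?_
        rw [Real.rpow_mul hl0.le, Real.rpow_natCast]
        refine pow_le_pow_left₀ (by positivity) ?_ _
        rw [mul_div_cancel₀ _ hL.ne']
        linarith
    rw [hI₂]
    refine (enorm_integral_le_lintegral_enorm _).trans ?_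
    calc ∫⁻ u in B, ‖Qb n Lam (2 * r) (u : EE n) (fllH s Q u) x‖ₑ ∂(sg n) ≤
        ∫⁻ _ in B, ENNReal.ofReal (Cs * M * (Cs * (lam ^ (ε * N'))⁻¹)) ∂(sg n) :=
          lintegral_mono fun u => h1 u
      _ = ENNReal.ofReal (Cs * M * (Cs * (lam ^ (ε * N'))⁻¹)) * sg n B := by
          rw [setLIntegral_const]
      _ ≤ ENNReal.ofReal (Cs * M * (Cs * (lam ^ (ε * N'))⁻¹)) * ENNReal.ofReal S₀ := by
          rw [← hS₀']
          exact mul_le_mul_right (measure_mono (Set.subset_univ B)) _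
      _ = ENNReal.ofReal T := by
          rw [← ENNReal.ofReal_mul (by positivity), hT, hK₀]
          congr 1
          ring
  obtain ⟨V, hV⟩ : ∃ V : ℝ≥0∞, V = ∫⁻ x, ‖v x‖ₑ ^ 2 := ⟨_, rfl⟩
  have hE2 : ∫⁻ x, ‖I₂ x‖ₑ ^ 2 ≤ C₂ * ENNReal.ofReal ((2 * r) ^ (n - 1)) *
      (C₄ * ENNReal.ofReal (r ^ (n - 1)) * V) := by
    rw [hI₂]
    refine (hC₂ Lam (2 * r) (Cs * M) B (fllH s Q) hL (by positivity) (by linarith) hB hHm
      hHb).trans ?_
    refine mul_le_mul_right ?_ _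
    rw [hV]
    refine le_trans ?_ (hC₄ Lam r M v hL hr (by linarith) hv hM)
    refine (setLIntegral_le_lintegral _ _).trans ?_
    refine lintegral_mono fun u => lintegral_mono fun x => ?_
    have h1 : ‖fllH s Q u x‖ₑ ≤ ‖Qb n Lam r (u : EE n) v x‖ₑ := by
      have h2 : ‖fllH s Q u x‖ₑ ≤ ‖Q u x‖ₑ := enorm_indicator_le_enorm_self _ _
      have h3 : Q u x = Qb n Lam r (u : EE n) v x := by rw [hQ]
      rw [h3] at h2
      exact h2
    exact pow_le_pow_left' h1 2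
  have hE3 : ∫⁻ x in {x : EE n | ‖x‖ ≤ σ}, ‖I₂ x‖ₑ ^ q ≤ ENNReal.ofReal (T ^ (q - 2)) *
      (C₂ * ENNReal.ofReal ((2 * r) ^ (n - 1)) * (C₄ * ENNReal.ofReal (r ^ (n - 1)) * V)) := by
    calc ∫⁻ x in {x : EE n | ‖x‖ ≤ σ}, ‖I₂ x‖ₑ ^ q ≤
        ∫⁻ x in {x : EE n | ‖x‖ ≤ σ}, ENNReal.ofReal (T ^ (q - 2)) * ‖I₂ x‖ₑ ^ 2 := by
          refine setLIntegral_mono' hball fun x hx => ?_
          have h1 : ‖I₂ x‖ₑ ^ q = ‖I₂ x‖ₑ ^ (q - 2) * ‖I₂ x‖ₑ ^ 2 := by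
            rw [← ENNReal.rpow_two, ← ENNReal.rpow_add_of_nonneg _ _ hq2.le (by norm_num)]
            congr 1
            ring
          rw [h1, ← ENNReal.ofReal_rpow_of_nonneg hT0 hq2.le]
          refine mul_le_mul_left ?_ _
          exact ENNReal.rpow_le_rpow (htail x hx) hq2.le
      _ = ENNReal.ofReal (T ^ (q - 2)) * ∫⁻ x in {x : EE n | ‖x‖ ≤ σ}, ‖I₂ x‖ₑ ^ 2 :=
          lintegral_const_mul' _ _ ENNReal.ofReal_ne_top
      _ ≤ _ := mul_le_mul_right ((setLIntegral_le_lintegral _ _).trans hE2) _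
  -- the constant
  have hKc : (m⁻¹) ^ q ≤ C₃ ^ q * r ^ (-(((n : ℝ) - 1) * q)) := by
    have h1 : m⁻¹ ≤ C₃ * r ^ (-((n : ℝ) - 1)) := by
      have h2 : m⁻¹ ≤ (C₃⁻¹ * r ^ (n - 1))⁻¹ := inv_anti₀ (by positivity) hmC
      rw [mul_inv, inv_inv] at h2
      rw [Real.rpow_neg hr.le]
      have h3 : (r : ℝ) ^ (n - 1) = r ^ ((n : ℝ) - 1) := by
        rw [← Real.rpow_natCast, Nat.cast_sub hn, Nat.cast_one]
      rwa [h3] at h2
    calc (m⁻¹) ^ q ≤ (C₃ * r ^ (-((n : ℝ) - 1))) ^ q :=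
          Real.rpow_le_rpow (by positivity) h1 hq0.le
      _ = _ := by
          rw [Real.mul_rpow hC₃0.le (by positivity), ← Real.rpow_mul hr.le]
          congr 2
          ring
  have hc1 : (C₁ : ℝ≥0∞) = ENNReal.ofReal (C₁ : ℝ) := (ENNReal.ofReal_coe_nnreal).symm
  have hc2 : (C₂ : ℝ≥0∞) = ENNReal.ofReal (C₂ : ℝ) := (ENNReal.ofReal_coe_nnreal).symm
  have hc4 : (C₄ : ℝ≥0∞) = ENNReal.ofReal (C₄ : ℝ) := (ENNReal.ofReal_coe_nnreal).symm
  have hcC : (C.toNNReal : ℝ≥0∞) = ENNReal.ofReal C := rfl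
  have hpos1 : 0 ≤ (C₁ : ℝ) := C₁.2
  have hpos2 : 0 ≤ (C₂ : ℝ) := C₂.2
  have hpos4 : 0 ≤ (C₄ : ℝ) := C₄.2
  have hrq : 0 ≤ r ^ (-(((n : ℝ) - 1) * q)) := by positivity
  have hrq1 : 0 ≤ r ^ (-(((n : ℝ) - 1) * (q - 1))) := by positivity
  have hX : 0 ≤ 64 ^ (((n : ℝ) - 1) * (q - 2)) * K₀ ^ (q - 2) := by positivity
  -- first inequality
  have hF1 : (m⁻¹) ^ q * 2 ^ (q - 1) * (C₁ * (2 * r) ^ (n - 1)) ≤
      C * r ^ (-(((n : ℝ) - 1) * (q - 1))) := by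
    calc (m⁻¹) ^ q * 2 ^ (q - 1) * (C₁ * (2 * r) ^ (n - 1)) ≤
        (C₃ ^ q * r ^ (-(((n : ℝ) - 1) * q))) * 2 ^ (q - 1) * (C₁ * (2 * r) ^ (n - 1)) := by
          gcongr
      _ = C₃ ^ q * 2 ^ (q - 1) * C₁ *
          (r ^ (-(((n : ℝ) - 1) * q)) * (2 * r) ^ (n - 1)) := by ring
      _ = C₃ ^ q * 2 ^ (q - 1) * 2 ^ (n - 1) * C₁ * r ^ (-(((n : ℝ) - 1) * (q - 1))) := by
          rw [fll_ar1 hn hr]
          ring
      _ ≤ C * r ^ (-(((n : ℝ) - 1) * (q - 1))) := by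
          refine mul_le_mul_of_nonneg_right ?_ hrq1
          rw [hC]
          refine mul_le_mul_of_nonneg_left ?_ (by positivity)
          have : 0 ≤ (C₂ : ℝ) * C₄ * (64 ^ (((n : ℝ) - 1) * (q - 2)) * K₀ ^ (q - 2)) := by
            positivity
          linarith
  have hF2 : (m⁻¹) ^ q * 2 ^ (q - 1) * (T ^ (q - 2) * (C₂ * (2 * r) ^ (n - 1) *
      (C₄ * r ^ (n - 1)))) ≤ C * ((lam ^ N)⁻¹ * M ^ (q - 2)) := by
    have hTq : 0 ≤ T ^ (q - 2) := Real.rpow_nonneg hT0 _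
    have hMq : 0 ≤ M ^ (q - 2) := Real.rpow_nonneg hM0 _
    calc (m⁻¹) ^ q * 2 ^ (q - 1) * (T ^ (q - 2) * (C₂ * (2 * r) ^ (n - 1) *
        (C₄ * r ^ (n - 1)))) ≤
        (C₃ ^ q * r ^ (-(((n : ℝ) - 1) * q))) * 2 ^ (q - 1) * (T ^ (q - 2) *
          (C₂ * (2 * r) ^ (n - 1) * (C₄ * r ^ (n - 1)))) := by
          gcongr
      _ = C₃ ^ q * 2 ^ (q - 1) * (C₂ * C₄) *
          (r ^ (-(((n : ℝ) - 1) * q)) * (2 * r) ^ (n - 1) * r ^ (n - 1) * T ^ (q - 2)) := by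
          ring
      _ ≤ C₃ ^ q * 2 ^ (q - 1) * (C₂ * C₄) *
          (2 ^ (n - 1) * (64 ^ (((n : ℝ) - 1) * (q - 2)) * K₀ ^ (q - 2)) *
            ((lam ^ N)⁻¹ * M ^ (q - 2))) := by
          refine mul_le_mul_of_nonneg_left ?_ (by positivity)
          rw [hT]
          exact fll_ar2 hn hr hlam hq hrl hK₀0 hM0 hN'
      _ = C₃ ^ q * 2 ^ (q - 1) * 2 ^ (n - 1) * (C₂ * C₄ *
          (64 ^ (((n : ℝ) - 1) * (q - 2)) * K₀ ^ (q - 2))) * ((lam ^ N)⁻¹ * M ^ (q - 2)) := by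
          ring
      _ ≤ C * ((lam ^ N)⁻¹ * M ^ (q - 2)) := by
          refine mul_le_mul_of_nonneg_right ?_ (by positivity)
          rw [hC]
          refine mul_le_mul_of_nonneg_left ?_ (by positivity)
          linarith
  -- assembly
  rw [← hJ, ← hV]
  calc ∫⁻ x in {x : EE n | ‖x‖ ≤ σ}, ‖v x‖ₑ ^ q ≤
      ENNReal.ofReal ((m⁻¹) ^ q * 2 ^ (q - 1)) *
        (C₁ * ENNReal.ofReal ((2 * r) ^ (n - 1)) * (sg n B) ^ (q - 2) * J +
          ENNReal.ofReal (T ^ (q - 2)) * (C₂ * ENNReal.ofReal ((2 * r) ^ (n - 1)) *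
            (C₄ * ENNReal.ofReal (r ^ (n - 1)) * V))) :=
        hstep.trans (mul_le_mul_right (add_le_add hE1 hE3) _)
    _ = ENNReal.ofReal ((m⁻¹) ^ q * 2 ^ (q - 1) * (C₁ * (2 * r) ^ (n - 1))) *
          ((sg n B) ^ (q - 2) * J) +
        ENNReal.ofReal ((m⁻¹) ^ q * 2 ^ (q - 1) * (T ^ (q - 2) * (C₂ * (2 * r) ^ (n - 1) *
          (C₄ * r ^ (n - 1))))) * V := by
        have hTq : 0 ≤ T ^ (q - 2) := Real.rpow_nonneg hT0 _
        rw [ENNReal.ofReal_mul (p := (m⁻¹) ^ q * 2 ^ (q - 1)) (by positivity),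
          ENNReal.ofReal_mul (p := (m⁻¹) ^ q * 2 ^ (q - 1)) (by positivity),
          ENNReal.ofReal_mul (p := (C₁ : ℝ)) hpos1, ENNReal.ofReal_mul (p := T ^ (q - 2)) hTq,
          ENNReal.ofReal_mul (p := (C₂ : ℝ) * (2 * r) ^ (n - 1)) (by positivity),
          ENNReal.ofReal_mul (p := (C₂ : ℝ)) hpos2, ENNReal.ofReal_mul (p := (C₄ : ℝ)) hpos4,
          hc1, hc2, hc4]
        ring
    _ ≤ ENNReal.ofReal (C * r ^ (-(((n : ℝ) - 1) * (q - 1)))) * ((sg n B) ^ (q - 2) * J) +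
        ENNReal.ofReal (C * ((lam ^ N)⁻¹ * M ^ (q - 2))) * V := by
        refine add_le_add ?_ ?_
        · exact mul_le_mul_left (ENNReal.ofReal_le_ofReal hF1) _
        · exact mul_le_mul_left (ENNReal.ofReal_le_ofReal hF2) _
    _ = _ := by
        rw [hcC, ENNReal.ofReal_mul (p := C) hC0, ENNReal.ofReal_mul (p := C) hC0]
        ring

end Pool.Agent.H33.TN
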