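import Pool.Agent.H93.TN.TargetsC

/-!
# OBM: the mirror image of OB
-/

set_option autoImplicit false

namespace Pool.Agent.H33.TN

open MeasureTheory Set FourierTransform
open Pool.Agent.H93.TN Pool.Agent.H83.LS Pool.Agent.H93.AR Pool.Agent.H54.LS Pool.Agent.H14.LS
open Pool.Agent.H83.AR Pool.Agent.H84.BR Pool.Agent.H84.B2
open scoped ENNReal NNReal

/-- exchange of the blocks as a measurable equivalence -/
noncomputable def obmE (hJM : T_JM) (a b : ℕ) : EE (a + b) ≃ᵐ EE (b + a) where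
  toFun := sw a b
  invFun := sw b a
  left_inv := fun x => ((hJM a b).2.2.2.2.2.2.2.2.2.2.2.2.1 x).1
  right_inv := fun x => ((hJM b a).2.2.2.2.2.2.2.2.2.2.2.2.1 x).1
  measurable_toFun := (hJM a b).2.2.2.2.2.2.2.1.measurable
  measurable_invFun := (hJM b a).2.2.2.2.2.2.2.1.measurable

theorem obm_emb (hJM : T_JM) (a b : ℕ) : MeasurableEmbedding (sw a b) :=
  (obmE hJM a b).measurableEmbedding

theorem obm_mp (hJM : T_JM) (a b : ℕ) : MeasurePreserving (sw a b) volume volume :=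
  (hJM a b).2.2.2.2.2.2.2.2.2.2.2.1

theorem obm_facts (hJM : T_JM) (a b : ℕ) (x : EE (a + b)) :
    sw b a (sw a b x) = x ∧ ‖sw a b x‖ = ‖x‖ ∧
      p1 b a (sw a b x) = p2 a b x ∧ p2 b a (sw a b x) = p1 a b x :=
  (hJM a b).2.2.2.2.2.2.2.2.2.2.2.2.1 x

theorem obm_inner (hJM : T_JM) (a b : ℕ) (x y : EE (a + b)) :
    (inner ℝ (sw a b x) (sw a b y) : ℝ) = inner ℝ x y :=
  (hJM a b).2.2.2.2.2.2.2.2.2.2.2.2.2 x y

/-- the Fourier transform and the exchange of the blocks -/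
theorem obm_fourier (hJM : T_JM) (a b : ℕ) (f : EE (a + b) → ℂ) (ξ : EE (b + a)) :
    𝓕 (fun x : EE (b + a) => f (sw b a x)) ξ = 𝓕 f (sw b a ξ) := by
  rw [Real.fourier_eq, Real.fourier_eq]
  rw [← (obm_mp hJM b a).integral_comp (obm_emb hJM b a)]
  refine integral_congr_ae (Filter.Eventually.of_forall fun v => ?_)
  simp only
  rw [obm_inner hJM b a]

/-- Fourier multipliers and the exchange of the blocks -/
theorem obm_MM (hJM : T_JM) (a b : ℕ) (f : EE (a + b) → ℂ) (m : EE (a + b) → ℂ)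
    (x : EE (b + a)) :
    MM (fun ξ => m (sw b a ξ)) (fun x => f (sw b a x)) x = MM m f (sw b a x) := by
  unfold MM
  rw [← (obm_mp hJM b a).integral_comp (obm_emb hJM b a)]
  refine integral_congr_ae (Filter.Eventually.of_forall fun ξ => ?_)
  simp only
  rw [obm_inner hJM b a, obm_fourier hJM a b f ξ]

theorem obm_BI (hJM : T_JM) (a b : ℕ) {A : ℝ} {g : EE (a + b) → ℂ} (hg : BI A g) :
    BI A (fun x : EE (b + a) => g (sw b a x)) := by
  obtain ⟨g1, g2, g3⟩ := hg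
  refine ⟨g1.comp (obm_mp hJM b a).measurable, ?_, fun x => g3 _⟩
  exact (obm_mp hJM b a).integrable_comp_emb (obm_emb hJM b a) |>.2 g2

theorem obm_back (hJM : T_JM) (a b : ℕ) (f : EE (b + a) → ℂ) :
    (fun x : EE (b + a) => (fun y : EE (a + b) => f (sw a b y)) (sw b a x)) = f := by
  funext x
  show f (sw a b (sw b a x)) = f x
  rw [(obm_facts hJM b a x).1]

theorem pf_obm (hOB : T_OB) (hSWF : Pool.Agent.H83.AR.T_SWF) (hJM : Pool.Agent.H83.AR.T_JM) :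
    T_OBM := by
  intro a b q ε M N ha hb hq hε hM
  obtain ⟨C, hC⟩ := hOB b a q ε M N hb ha hq hε hM
  refine ⟨C, ?_⟩
  intro lam Lam L ρ φ σ A K Y m h hlam hw hL4 hL hσ hRG hY hMF hband hh
  obtain ⟨m1, m2, m3, m4, m5⟩ := hMF
  have key := hC lam Lam L ρ φ σ A K Y (fun t ξ => m t (sw b a ξ)) (fun f => f)
    (fun x => h (sw b a x)) hlam hw hL4 hL hσ hRG hY ?_ (Or.inl fun f => rfl) ?_
    (obm_BI hJM a b hh)
  · -- conclusion
    have h2 : ∫⁻ x : EE (b + a), ‖h (sw b a x)‖ₑ ^ 2 = ∫⁻ x : EE (a + b), ‖h x‖ₑ ^ 2 :=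
      (obm_mp hJM b a).lintegral_comp_emb (obm_emb hJM b a) (fun x => ‖h x‖ₑ ^ 2)
    have hA : A1 b a L (fun x : EE (b + a) => h (sw b a x)) =
        fun x : EE (b + a) => A2 a b L h (sw b a x) := by
      funext x
      exact ((hSWF a b h ha hb hh.1 hh.2.1).2.2 L x).2
    have h3 : ∀ t : ℝ, ∫⁻ x in {x : EE (b + a) | ρ ≤ ‖p1 b a x‖ ∧ ‖p1 b a x‖ ≤ σ ∧
        p2 b a x ∈ Y}, ‖MM (fun ξ => m t (sw b a ξ))
          (A1 b a L (fun x : EE (b + a) => h (sw b a x))) x‖ₑ ^ q =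
        ∫⁻ x in {x : EE (a + b) | ρ ≤ ‖p2 a b x‖ ∧ ‖p2 a b x‖ ≤ σ ∧
          p1 a b x ∈ Y}, ‖MM (m t) (A2 a b L h) x‖ₑ ^ q := by
      intro t
      rw [hA]
      simp_rw [obm_MM hJM a b (A2 a b L h) (m t)]
      have hset : {x : EE (b + a) | ρ ≤ ‖p1 b a x‖ ∧ ‖p1 b a x‖ ≤ σ ∧ p2 b a x ∈ Y} =
          sw b a ⁻¹' {x : EE (a + b) | ρ ≤ ‖p2 a b x‖ ∧ ‖p2 a b x‖ ≤ σ ∧ p1 a b x ∈ Y} := by
        ext x
        simp only [Set.mem_ofPred_eq, mem_preimage]
        rw [(obm_facts hJM b a x).2.2.1, (obm_facts hJM b a x).2.2.2]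
      rw [hset]
      exact (obm_mp hJM b a).setLIntegral_comp_preimage_emb (obm_emb hJM b a)
        (fun x => ‖MM (m t) (A2 a b L h) x‖ₑ ^ q) _
    simp_rw [h3] at key
    rw [h2] at key
    exact key
  · -- the symbols
    refine ⟨?_, fun t ξ => m2 t _, ?_, ?_, ?_⟩
    · exact m1.comp (continuous_fst.prodMk ((hJM b a).2.2.2.2.2.2.2.1.comp continuous_snd))
    · intro t ξ hne
      obtain ⟨h1, h2, h3⟩ := m3 t _ hne
      obtain ⟨-, f2, f3, f4⟩ := obm_facts hJM b a ξ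
      rw [f2] at h1
      rw [f4] at h2 h3
      exact ⟨h1, h2, h3⟩
    · intro t ξ ξ' h1 h2
      refine m4 t _ _ ?_ ?_
      · rw [(obm_facts hJM b a ξ).2.2.2, (obm_facts hJM b a ξ').2.2.2]
        exact h1
      · rw [(obm_facts hJM b a ξ).2.2.1, (obm_facts hJM b a ξ').2.2.1]
        exact h2
    · intro t ht A' f hf x
      have h1 := obm_MM hJM a b (fun y : EE (a + b) => f (sw a b y)) (m t) x
      rw [obm_back hJM a b f] at h1
      show ‖MM (fun ξ => m t (sw b a ξ)) f x‖ ≤ _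
      rw [h1]
      exact m5 t ht A' _ (obm_BI hJM b a hf) _
  · -- the bands
    intro u A' g hu hg
    have key := hband u A' (fun y : EE (a + b) => g (sw a b y)) hu (obm_BI hJM b a hg)
    have h2 : ∫⁻ x : EE (a + b), ‖g (sw a b x)‖ₑ ^ 2 = ∫⁻ x : EE (b + a), ‖g x‖ₑ ^ 2 :=
      (obm_mp hJM a b).lintegral_comp_emb (obm_emb hJM a b) (fun x => ‖g x‖ₑ ^ 2)
    have h3 : ∀ t : ℝ, ∫⁻ x in {x : EE (b + a) | |inner ℝ (p1 b a x) u| ≤ 2 * lam ^ ε * σ ∧
        p2 b a x ∈ Y},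
        ‖MM (fun ξ => m t (sw b a ξ) * sy b ch2 Lam (dl lam Lam) u (p1 b a ξ)) g x‖ₑ ^ q =
        ∫⁻ x in {x : EE (a + b) | |inner ℝ (p2 a b x) u| ≤ 2 * lam ^ ε * σ ∧
          p1 a b x ∈ Y},
        ‖MM (fun ξ => m t ξ * sy b ch2 Lam (dl lam Lam) u (p2 a b ξ))
          (fun y : EE (a + b) => g (sw a b y)) x‖ₑ ^ q := by
      intro t
      have hMM : ∀ x : EE (b + a),
          MM (fun ξ => m t (sw b a ξ) * sy b ch2 Lam (dl lam Lam) u (p1 b a ξ)) g x =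
          MM (fun ξ => m t ξ * sy b ch2 Lam (dl lam Lam) u (p2 a b ξ))
            (fun y : EE (a + b) => g (sw a b y)) (sw b a x) := by
        intro x
        rw [← obm_MM hJM a b (fun y : EE (a + b) => g (sw a b y)), obm_back hJM a b g]
        congr 1
        funext ξ
        rw [(obm_facts hJM b a ξ).2.2.2]
      simp_rw [hMM]
      have hset : {x : EE (b + a) | |inner ℝ (p1 b a x) u| ≤ 2 * lam ^ ε * σ ∧
          p2 b a x ∈ Y} = sw b a ⁻¹' {x : EE (a + b) | |inner ℝ (p2 a b x) u| ≤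
            2 * lam ^ ε * σ ∧ p1 a b x ∈ Y} := by
        ext x
        simp only [Set.mem_ofPred_eq, mem_preimage]
        rw [(obm_facts hJM b a x).2.2.1, (obm_facts hJM b a x).2.2.2]
      rw [hset]
      exact (obm_mp hJM b a).setLIntegral_comp_preimage_emb (obm_emb hJM b a)
        (fun x => ‖MM (fun ξ => m t ξ * sy b ch2 Lam (dl lam Lam) u (p2 a b ξ))
            (fun y : EE (a + b) => g (sw a b y)) x‖ₑ ^ q) _
    simp_rw [h3]
    rw [h2] at key
    exact key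

end Pool.Agent.H33.TN
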